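import Pool.Agent.Helper70.SUB.SheetA

/-!
Project SUB, row MONO: terms as monomials in independent quantities.
-/

set_option autoImplicit false

namespace Pool.Agent.Helper8.SUB

open Finset Pool.Agent.Helper70.SUB

theorem pigeon {κ : Type*} [Finite κ] {M : Set ℕ} (hM : M.Infinite) (f : ℕ → κ) :
    ∃ y, {j | j ∈ M ∧ f j = y}.Infinite := by
  by_contra h
  push Not at h
  apply hM
  have h1 : M ⊆ ⋃ y, {j | j ∈ M ∧ f j = y} := by
    intro j hj
    exact Set.mem_iUnion.mpr ⟨f j, hj, rfl⟩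
  refine Set.Finite.subset (Set.finite_iUnion fun y => ?_) h1
  exact h y

theorem zpow_sum0 {κ : Type*} (s : Finset κ) (a : ℚ) (ha : a ≠ 0) (f : κ → ℤ) :
    a ^ (∑ i ∈ s, f i) = ∏ i ∈ s, a ^ (f i) := by
  classical
  induction s using Finset.induction_on with
  | empty => simp
  | insert i s hi ih => rw [Finset.sum_insert hi, Finset.prod_insert hi, zpow_add₀ ha, ih]

theorem mon_mulVec {n : ℕ} (w : Fin n → ℚ) (hw : ∀ k, w k ≠ 0) (T : Matrix (Fin n) (Fin n) ℤ)
    (x : Fin n → ℤ) : mon w (T.mulVec x) = mon (fun k => mon w (fun i => T i k)) x := by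
  unfold mon
  simp only [Matrix.mulVec, dotProduct]
  have h1 : ∀ i, w i ^ (∑ k, T i k * x k) = ∏ k, (w i ^ (T i k)) ^ (x k) := by
    intro i
    rw [zpow_sum0 _ _ (hw i)]
    refine Finset.prod_congr rfl fun k _ => ?_
    rw [zpow_mul]
  rw [Finset.prod_congr rfl fun i _ => h1 i, Finset.prod_comm]
  refine Finset.prod_congr rfl fun k _ => ?_
  rw [Finset.prod_zpow]

theorem mon_pos {n : ℕ} (w : Fin n → ℚ) (hw : ∀ k, 0 < w k) (m : Fin n → ℤ) : 0 < mon w m := by
  unfold mon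
  exact Finset.prod_pos fun k _ => zpow_pos (hw k) _

theorem mon_succ {n : ℕ} (w : Fin (n + 1) → ℚ) (m : Fin (n + 1) → ℤ) :
    mon w m = w 0 ^ m 0 * mon (fun k => w k.succ) (fun k => m k.succ) := Fin.prod_univ_succ _

/-- representation without independence -/
def Rep (ι : Type) [Fintype ι] (M : Set ℕ) (u : ℕ → ι → ℤ) (r : ℕ) : Prop :=
  ∃ (M' : Set ℕ) (w : ℕ → Fin r → ℚ) (m : ι → Fin r → ℤ) (c : ι → ℚ), M' ⊆ M ∧
    M'.Infinite ∧ (∀ i, c i ≠ 0) ∧ (∀ j ∈ M', ∀ k, 0 < w j k) ∧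
    (∀ j ∈ M', ∀ i, (u j i : ℚ) = c i * mon (w j) (m i)) ∧
    (∀ k, ∃ (κ : ℚ) (e : ι → ℤ), 0 < κ ∧ ∀ j ∈ M', w j k = κ * ∏ i, |(u j i : ℚ)| ^ (e i))

theorem rep0 (ι : Type) [Fintype ι] (M : Set ℕ) (u : ℕ → ι → ℤ) (hM : M.Infinite)
    (hu : ∀ j ∈ M, ∀ i, u j i ≠ 0) : Rep ι M u (Fintype.card ι) := by
  classical
  obtain ⟨y, hy⟩ := pigeon hM (fun j => fun i => decide (0 < u j i))
  set e := Fintype.equivFin ι with he
  refine ⟨{j | j ∈ M ∧ (fun i => decide (0 < u j i)) = y}, fun j k => |(u j (e.symm k) : ℚ)|,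
    fun i => Pi.single (e i) 1, fun i => if y i then 1 else -1, fun j hj => hj.1, hy,
    fun i => ?_, fun j hj k => ?_, fun j hj i => ?_, fun k => ?_⟩
  · show (if y i = true then (1 : ℚ) else -1) ≠ 0
    split_ifs <;> norm_num
  · have := hu j hj.1 (e.symm k)
    exact abs_pos.mpr (by exact_mod_cast this)
  · have h1 : mon (fun k => |(u j (e.symm k) : ℚ)|) (Pi.single (e i) 1) = |(u j i : ℚ)| := by
      unfold mon
      rw [Finset.prod_eq_single (e i)]
      · simp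
      · intro k _ hk
        simp [Pi.single_eq_of_ne hk]
      · simp
    rw [h1]
    show (u j i : ℚ) = (if y i = true then (1 : ℚ) else -1) * |(u j i : ℚ)|
    have h2 : decide (0 < u j i) = y i := congrFun hj.2 i
    have h3 := hu j hj.1 i
    by_cases h4 : 0 < u j i
    · have h5 : y i = true := by rw [← h2]; simpa using h4
      have h6 : (0 : ℚ) < u j i := by exact_mod_cast h4
      rw [h5, abs_of_pos h6]
      simp
    · have h5 : y i = false := by rw [← h2]; simpa using h4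
      have h6 : (u j i : ℚ) < 0 := by
        have : u j i < 0 := lt_of_le_of_ne (not_lt.mp h4) h3
        exact_mod_cast this
      rw [h5, abs_of_neg h6]
      simp
  · refine ⟨1, Pi.single (e.symm k) 1, one_pos, fun j hj => ?_⟩
    show |(u j (e.symm k) : ℚ)| = _
    rw [one_mul, Finset.prod_eq_single (e.symm k)]
    · simp
    · intro i _ hi
      simp [Pi.single_eq_of_ne hi]
    · simp

theorem rep_step (hU : ST_UNI) (ι : Type) [Fintype ι] (M : Set ℕ) (u : ℕ → ι → ℤ) (r : ℕ)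
    (M' : Set ℕ) (w : ℕ → Fin (r + 1) → ℚ) (m : ι → Fin (r + 1) → ℤ) (c : ι → ℚ) (hMM : M' ⊆ M)
    (hc : ∀ i, c i ≠ 0) (hw : ∀ j ∈ M', ∀ k, 0 < w j k)
    (hrep : ∀ j ∈ M', ∀ i, (u j i : ℚ) = c i * mon (w j) (m i))
    (hwk : ∀ k, ∃ (κ : ℚ) (e : ι → ℤ), 0 < κ ∧
      ∀ j ∈ M', w j k = κ * ∏ i, |(u j i : ℚ)| ^ (e i))
    (hu : ∀ j ∈ M', ∀ i, u j i ≠ 0)
    (l : Fin (r + 1) → ℤ) (ρ : ℚ) (hl : l ≠ 0)
    (hinf : {j | j ∈ M' ∧ mon (w j) l = ρ}.Infinite) : Rep ι M u r := by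
  classical
  obtain ⟨l', hl', hg⟩ := Finset.extract_gcd (s := (Finset.univ : Finset (Fin (r + 1)))) l
    Finset.univ_nonempty
  set G : ℤ := Finset.univ.gcd l with hG
  have hG0 : G ≠ 0 := by
    intro h0
    apply hl
    funext k
    rw [hl' k (Finset.mem_univ k), h0, zero_mul]
    rfl
  have hprim : Prim l' := by
    intro d hd
    apply isUnit_of_dvd_one
    rw [← hg]
    exact Finset.dvd_gcd fun k _ => hd k
  obtain ⟨T, hT, hT0⟩ := hU r l' hprim
  -- the quantity `mon (w j) l'` is constant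
  have hml : ∀ j, mon (w j) l = (mon (w j) l') ^ G := by
    intro j
    unfold mon
    rw [← Finset.prod_zpow]
    refine Finset.prod_congr rfl fun k _ => ?_
    rw [hl' k (Finset.mem_univ k), mul_comm, zpow_mul]
  obtain ⟨j0, hj0⟩ := hinf.nonempty
  have hconst : ∀ j, j ∈ M' → mon (w j) l = ρ → mon (w j) l' = mon (w j0) l' := by
    intro j hj hjr
    have h1 : (mon (w j) l') ^ G = (mon (w j0) l') ^ G := by
      rw [← hml, ← hml, hjr, hj0.2]
    have p1 := mon_pos (w j) (hw j hj) l'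
    have p2 := mon_pos (w j0) (hw j0 hj0.1) l'
    have hx : ∀ x : ℚ, x ^ G.natAbs = if 0 ≤ G then x ^ G else (x ^ G)⁻¹ := by
      intro x
      split_ifs with h
      · rw [← zpow_natCast, Int.natAbs_of_nonneg h]
      · rw [← zpow_natCast, ← zpow_neg]
        have : (G.natAbs : ℤ) = -G := by omega
        rw [this]
    have h2 : (mon (w j) l') ^ G.natAbs = (mon (w j0) l') ^ G.natAbs := by
      rw [hx, hx, h1]
    exact (pow_left_inj₀ p1.le p2.le (by simpa using hG0)).mp h2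
  have hTinv : T * T⁻¹ = 1 := Matrix.mul_nonsing_inv T hT
  refine ⟨{j | j ∈ M' ∧ mon (w j) l = ρ}, fun j k => mon (w j) (fun i => T i k.succ),
    fun i k => (T⁻¹.mulVec (m i)) k.succ,
    fun i => c i * (mon (w j0) l') ^ ((T⁻¹.mulVec (m i)) 0),
    fun j hj => hMM hj.1, hinf, fun i => ?_, fun j hj k => ?_, fun j hj i => ?_, fun k => ?_⟩
  · exact mul_ne_zero (hc i) (zpow_ne_zero _ (mon_pos (w j0) (hw j0 hj0.1) l').ne')
  · exact mon_pos (w j) (hw j hj.1) _
  · rw [hrep j hj.1 i]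
    have h1 : m i = T.mulVec (T⁻¹.mulVec (m i)) := by
      rw [Matrix.mulVec_mulVec, hTinv, Matrix.one_mulVec]
    have h2 : mon (w j) (m i) = mon (fun k => mon (w j) (fun i => T i k)) (T⁻¹.mulVec (m i)) := by
      conv_lhs => rw [h1]
      exact mon_mulVec (w j) (fun k => (hw j hj.1 k).ne') T _
    have h3 : mon (w j) (fun i => T i 0) = mon (w j0) l' := by
      have : (fun i => T i 0) = l' := funext hT0
      rw [this]
      exact hconst j hj.1 hj.2
    rw [h2, mon_succ]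
    show c i * (mon (w j) (fun i => T i 0) ^ ((T⁻¹.mulVec (m i)) 0) *
        mon (fun k => mon (w j) (fun i => T i k.succ)) (fun k => (T⁻¹.mulVec (m i)) k.succ)) =
      c i * (mon (w j0) l') ^ ((T⁻¹.mulVec (m i)) 0) *
        mon (fun k => mon (w j) (fun i => T i k.succ)) (fun k => (T⁻¹.mulVec (m i)) k.succ)
    rw [h3]
    ring
  · choose κ e hκ he using hwk
    refine ⟨∏ i, κ i ^ (T i k.succ), fun i' => ∑ i, e i i' * T i k.succ,
      Finset.prod_pos fun i _ => zpow_pos (hκ i) _, fun j hj => ?_⟩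
    show mon (w j) (fun i => T i k.succ) = _
    unfold mon
    have h1 : ∀ i, w j i ^ (T i k.succ) = κ i ^ (T i k.succ) *
        ∏ i', |(u j i' : ℚ)| ^ (e i i' * T i k.succ) := by
      intro i
      rw [he i j hj.1, mul_zpow, ← Finset.prod_zpow]
      congr 1
      refine Finset.prod_congr rfl fun i' _ => ?_
      rw [zpow_mul]
    rw [Finset.prod_congr rfl fun i _ => h1 i, Finset.prod_mul_distrib, Finset.prod_comm]
    congr 1
    refine Finset.prod_congr rfl fun i' _ => ?_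
    rw [zpow_sum0]
    have := hu j hj.1 i'
    exact abs_ne_zero.mpr (by exact_mod_cast this)

theorem MONO (hU : ST_UNI) : ST_MONO := by
  intro ι _ M u hM hu
  classical
  have hex : ∃ r, Rep ι M u r := ⟨_, rep0 ι M u hM hu⟩
  set r := Nat.find hex with hr
  obtain ⟨M', w, m, c, h1, h2, h3, h4, h5, h6⟩ := Nat.find_spec hex
  refine ⟨M', r, w, m, c, h1, h2, h3, ⟨h4, fun l ρ hl => ?_⟩, h5, h6⟩
  by_contra hinf
  have hinf' : {j | j ∈ M' ∧ mon (w j) l = ρ}.Infinite := hinf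
  have hr1 : r ≠ 0 := by
    intro h0
    apply hl
    funext k
    exact absurd k.2 (by omega)
  obtain ⟨r', hr'⟩ := Nat.exists_eq_succ_of_ne_zero hr1
  have key : ∀ (q : ℕ) (w : ℕ → Fin q → ℚ) (m : ι → Fin q → ℤ) (l : Fin q → ℤ),
      q = r' + 1 → (∀ j ∈ M', ∀ k, 0 < w j k) →
      (∀ j ∈ M', ∀ i, (u j i : ℚ) = c i * mon (w j) (m i)) →
      (∀ k, ∃ (κ : ℚ) (e : ι → ℤ), 0 < κ ∧
        ∀ j ∈ M', w j k = κ * ∏ i, |(u j i : ℚ)| ^ (e i)) → l ≠ 0 →
      {j | j ∈ M' ∧ mon (w j) l = ρ}.Infinite → Rep ι M u r' := by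
    intro q w m l hq
    subst hq
    intro a1 a2 a5 a3 a4
    exact rep_step hU ι M u r' M' w m c h1 h3 a1 a2 a5 (fun j hj => hu j (h1 hj)) l ρ a3 a4
  have := key r w m l hr' h4 h5 h6 hl hinf'
  exact Nat.find_min hex (by omega) this

end Pool.Agent.Helper8.SUB
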