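import Pool.Agent.Helper70.SUB.SheetA
import Pool.Agent.Helper8.SUB.MONO

/-!
Project SUB, row U2: lower bound at a place for sums of S-units.
-/

set_option autoImplicit false

namespace Pool.Agent.Helper8.SUB

open Finset Pool.Agent.Helper70.SUB

theorem det_upd {n : ℕ} (i : Fin n) (b : Fin n → ℚ) :
    ((1 : Matrix (Fin n) (Fin n) ℚ).updateRow i b).det = b i := by
  have h := Matrix.cramer_transpose_apply (1 : Matrix (Fin n) (Fin n) ℚ) b i
  rw [← h, Matrix.transpose_one, Matrix.cramer_one]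
  rfl

theorem upd_ne {n : ℕ} (i i1 : Fin n) (b x : Fin n → ℚ) (hi : i ≠ i1) :
    ((1 : Matrix (Fin n) (Fin n) ℚ).updateRow i1 b).mulVec x i = x i := by
  show ((1 : Matrix (Fin n) (Fin n) ℚ).updateRow i1 b) i ⬝ᵥ x = x i
  rw [Matrix.updateRow_ne hi]
  exact congrFun (Matrix.one_mulVec x) i

theorem upd_self {n : ℕ} (i1 : Fin n) (b x : Fin n → ℚ) :
    ((1 : Matrix (Fin n) (Fin n) ℚ).updateRow i1 b).mulVec x i1 = ∑ k, b k * x k := by
  show ((1 : Matrix (Fin n) (Fin n) ℚ).updateRow i1 b) i1 ⬝ᵥ x = _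
  rw [Matrix.updateRow_self]
  rfl

/-- the core: at least two terms -/
theorem core (hS : ST_SUBT) (hR : ST_REL) (hAV : ST_AV) (ι : Type) [Fintype ι] [DecidableEq ι]
    (S : Finset ℕ) (a : ι → ℚ) (ε : ℝ) (M : Set ℕ) (u : ℕ → ι → ℤ) (v0 : Option ℕ)
    (hSp : ∀ p ∈ S, p.Prime) (hne : Nontrivial ι) (ha : ∀ i, a i ≠ 0) (hε : 0 < ε)
    (hu : ∀ j ∈ M, ∀ i, SU S (u j i))
    (hnp : ∀ (i i' : ι) (ρ : ℚ), i ≠ i' → {j | j ∈ M ∧ (u j i : ℚ) = ρ * u j i'}.Finite)
    (hv0 : v0 ∈ plc S) :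
    {j | j ∈ M ∧ ¬ ∀ (i : ι) (H : ℝ), (∀ i', |(u j i' : ℝ)| ≤ H) →
      av v0 (u j i) * H ^ (-ε) ≤ av v0 (∑ i, a i * (u j i : ℚ))}.Finite := by
  obtain ⟨hav0, havz, hav⟩ := hAV
  obtain ⟨hpos, hmul, htri, hult, hint, hlow, hpf, hpfS, hsum⟩ := hav S hSp
  by_contra hinf
  have hinf1 : {j | j ∈ M ∧ ¬ ∀ (i : ι) (H : ℝ), (∀ i', |(u j i' : ℝ)| ≤ H) →
      av v0 (u j i) * H ^ (-ε) ≤ av v0 (∑ i, a i * (u j i : ℚ))}.Infinite := hinf
  set E := {j | j ∈ M ∧ ¬ ∀ (i : ι) (H : ℝ), (∀ i', |(u j i' : ℝ)| ≤ H) →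
      av v0 (u j i) * H ^ (-ε) ≤ av v0 (∑ i, a i * (u j i : ℚ))} with hE
  have hneι : Nonempty ι := inferInstance
  -- the index of the largest term
  have hmax : ∀ j, ∃ i0, ∀ i, av v0 (u j i) ≤ av v0 (u j i0) := by
    intro j
    obtain ⟨i0, -, h⟩ := Finset.exists_max_image (Finset.univ : Finset ι)
      (fun i => av v0 (u j i)) Finset.univ_nonempty
    exact ⟨i0, fun i => h i (Finset.mem_univ i)⟩
  choose im him using hmax
  obtain ⟨i0, hi0⟩ := pigeon hinf1 im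
  set E1 := {j | j ∈ E ∧ im j = i0} with hE1
  have hE1M : ∀ j ∈ E1, j ∈ M := fun j hj => hj.1.1
  have hEi : ∀ j ∈ E1, ∀ i, av v0 (u j i) ≤ av v0 (u j i0) := by
    intro j hj i
    have := him j i
    rwa [hj.2] at this
  have hu1 : ∀ j ∈ E1, ∀ i, (1 : ℝ) ≤ |(u j i : ℝ)| := by
    intro j hj i
    have h1 := (hu j (hE1M j hj) i).1
    have h2 : 1 ≤ |u j i| := Int.one_le_abs h1
    exact_mod_cast h2
  -- the vectors
  set n := Fintype.card ι with hn
  set e : ι ≃ Fin n := Fintype.equivFin ι with he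
  set x : ℕ → Fin n → ℤ := fun j k => u j (e.symm k) with hx
  have hn1 : 1 ≤ n := Fintype.card_pos
  have hxle : ∀ j i, |(u j i : ℝ)| ≤ ‖x j‖ := by
    intro j i
    have h1 := norm_le_pi_norm (x j) (e i)
    rw [Int.norm_eq_abs] at h1
    simpa [hx] using h1
  have hxpos : ∀ j ∈ E1, 0 < ‖x j‖ := fun j hj =>
    lt_of_lt_of_le (lt_of_lt_of_le one_pos (hu1 j hj i0)) (hxle j i0)
  have hxH : ∀ j (H : ℝ), (∀ i', |(u j i' : ℝ)| ≤ H) → ‖x j‖ ≤ H := by
    intro j H hH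
    have hH0 : 0 ≤ H := (abs_nonneg _).trans (hH i0)
    rw [pi_norm_le_iff_of_nonneg hH0]
    intro k
    rw [Int.norm_eq_abs]
    exact hH (e.symm k)
  have hsm : ∀ j ∈ E1, av v0 (∑ i, a i * (u j i : ℚ)) ≤ av v0 (u j i0) * ‖x j‖ ^ (-ε) := by
    intro j hj
    have h1 := hj.1.2
    push Not at h1
    obtain ⟨i, H, hH, hi⟩ := h1
    refine hi.le.trans ?_
    have h2 : H ^ (-ε) ≤ ‖x j‖ ^ (-ε) :=
      Real.rpow_le_rpow_of_nonpos (hxpos j hj) (hxH j H hH) (by linarith)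
    exact mul_le_mul (hEi j hj i) h2
      (Real.rpow_nonneg (((abs_nonneg _).trans (hH i0))) _) (hav0 _ _)
  -- bounded subsets
  have hbd : ∀ H : ℝ, {j | j ∈ E1 ∧ ‖x j‖ ≤ H}.Finite := by
    intro H
    by_contra hfin
    have hfin' : {j | j ∈ E1 ∧ ‖x j‖ ≤ H}.Infinite := hfin
    -- the values lie in a finite set
    set L : ℤ := ⌈H⌉ with hL
    have hval : ∀ j, j ∈ E1 ∧ ‖x j‖ ≤ H → ∀ i, u j i ∈ Finset.Icc (-L) L := by
      intro j hj i
      have h3 : (|u j i| : ℤ) ≤ L := by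
        have : ((|u j i| : ℤ) : ℝ) ≤ H := by
          rw [Int.cast_abs]
          exact (hxle j i).trans hj.2
        exact_mod_cast this.trans (Int.le_ceil H)
      rw [Finset.mem_Icc]
      exact abs_le.mp h3
    obtain ⟨i, i', hii⟩ := exists_pair_ne ι
    have hfc : Finite (Finset.Icc (-L) L × Finset.Icc (-L) L) := inferInstance
    classical
    by_cases hLL : (0 : ℤ) ∈ Finset.Icc (-L) L
    · obtain ⟨y, hy⟩ := pigeon hfin' (fun j =>
        ((if h : u j i ∈ Finset.Icc (-L) L then ⟨u j i, h⟩ else ⟨0, hLL⟩ : Finset.Icc (-L) L),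
        (if h : u j i' ∈ Finset.Icc (-L) L then ⟨u j i', h⟩ else ⟨0, hLL⟩ : Finset.Icc (-L) L)))
      obtain ⟨j0, hj0⟩ := hy.nonempty
      have hyv : ∀ j, j ∈ {j | j ∈ {j | j ∈ E1 ∧ ‖x j‖ ≤ H} ∧ (fun j =>
        ((if h : u j i ∈ Finset.Icc (-L) L then ⟨u j i, h⟩ else ⟨0, hLL⟩ : Finset.Icc (-L) L),
        (if h : u j i' ∈ Finset.Icc (-L) L then ⟨u j i', h⟩ else ⟨0, hLL⟩ :
          Finset.Icc (-L) L))) j = y} → u j i = y.1 ∧ u j i' = y.2 := by
        intro j hj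
        have h1 := hj.2
        have h2 := hval j hj.1 i
        have h3 := hval j hj.1 i'
        simp only [h2, h3, dif_pos] at h1
        rw [← h1]
        exact ⟨rfl, rfl⟩
      refine hy (Set.Finite.subset (hnp i i' ((u j0 i : ℚ) / u j0 i') hii) ?_)
      intro j hj
      refine ⟨hE1M j hj.1.1, ?_⟩
      have hne0 : (u j0 i' : ℚ) ≠ 0 := by exact_mod_cast (hu j0 (hE1M j0 hj0.1.1) i').1
      have e1 := hyv j hj
      have e2 := hyv j0 hj0
      rw [e1.1, e1.2, e2.1, e2.2]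
      rw [e2.2] at hne0
      field_simp
    · obtain ⟨j0, hj0⟩ := hfin'.nonempty
      have h1 := hval j0 hj0 i
      rw [Finset.mem_Icc] at h1 hLL
      omega
  -- the forms
  set b : Fin n → ℚ := fun k => a (e.symm k) with hb
  set A : Option ℕ → Matrix (Fin n) (Fin n) ℚ := fun v =>
    if v = v0 then (1 : Matrix (Fin n) (Fin n) ℚ).updateRow (e i0) b else 1 with hA
  have hdet : ∀ v ∈ plc S, (A v).det ≠ 0 := by
    intro v _
    simp only [hA]
    split_ifs
    · rw [det_upd]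
      exact ha _
    · simp
  have hprod : ∀ j ∈ E1, ∏ v ∈ plc S, ∏ i, av v ((A v).mulVec (cv (x j)) i) ≤ ‖x j‖ ^ (-ε) := by
    intro j hj
    have hxS : ∀ k, ∏ v ∈ plc S, av v ((x j k : ℤ) : ℚ) = 1 := by
      intro k
      have h1 := hu j (hE1M j hj) (e.symm k)
      exact hpfS (x j k) h1.1 h1.2
    have hup : 0 < av v0 (u j i0) := by
      refine hpos v0 hv0 _ ?_
      exact_mod_cast (hu j (hE1M j hj) i0).1
    have hfac : ∀ v, ∏ i, av v ((A v).mulVec (cv (x j)) i) =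
        (∏ i, av v ((x j i : ℤ) : ℚ)) *
          (if v = v0 then av v0 (∑ i, a i * (u j i : ℚ)) / av v0 (u j i0) else 1) := by
      intro v
      by_cases hv : v = v0
      · subst hv
        rw [if_pos rfl]
        have h1 : ∀ i, i ≠ e i0 → (A v).mulVec (cv (x j)) i = ((x j i : ℤ) : ℚ) := by
          intro i hi
          simp only [hA, if_true]
          exact upd_ne i (e i0) b (cv (x j)) hi
        have h2 : (A v).mulVec (cv (x j)) (e i0) = ∑ i, a i * (u j i : ℚ) := by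
          simp only [hA, if_true]
          rw [upd_self]
          exact Equiv.sum_comp e.symm (fun i => a i * (u j i : ℚ))
        rw [← Finset.mul_prod_erase Finset.univ _ (Finset.mem_univ (e i0)),
          ← Finset.mul_prod_erase Finset.univ (fun i => av v ((x j i : ℤ) : ℚ))
            (Finset.mem_univ (e i0)), h2]
        have h3 : ∏ i ∈ Finset.univ.erase (e i0), av v ((A v).mulVec (cv (x j)) i) =
            ∏ i ∈ Finset.univ.erase (e i0), av v ((x j i : ℤ) : ℚ) := by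
          refine Finset.prod_congr rfl fun i hi => ?_
          rw [h1 i (Finset.ne_of_mem_erase hi)]
        rw [h3]
        have h4 : av v ((x j (e i0) : ℤ) : ℚ) = av v (u j i0) := by
          simp [hx]
        rw [h4]
        have h5 : av v (u j i0) ≠ 0 := hup.ne'
        field_simp
      · rw [if_neg hv, mul_one]
        refine Finset.prod_congr rfl fun i _ => ?_
        have : A v = 1 := by simp [hA, hv]
        rw [this, Matrix.one_mulVec]
        rfl
    have hall : ∏ v ∈ plc S, ∏ i, av v ((x j i : ℤ) : ℚ) = 1 := by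
      rw [Finset.prod_comm]
      exact Finset.prod_eq_one fun i _ => hxS i
    have htot : ∏ v ∈ plc S, ∏ i, av v ((A v).mulVec (cv (x j)) i) =
        av v0 (∑ i, a i * (u j i : ℚ)) / av v0 (u j i0) := by
      rw [Finset.prod_congr rfl fun v _ => hfac v, Finset.prod_mul_distrib, hall, one_mul,
        Finset.prod_ite_eq' (plc S) v0, if_pos hv0]
    rw [htot, div_le_iff₀ hup, mul_comm]
    exact hsm j hj
  obtain ⟨w, hw0, hwinf⟩ := hS n S A ε E1 x hn1 hSp hdet hε hi0 hbd hprod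
  -- the relation
  have hwT : ∃ k, w k ≠ 0 := by
    by_contra h
    push Not at h
    exact hw0 (funext h)
  obtain ⟨k0, hk0⟩ := hwT
  have hne' : Nonempty {i : ι // w (e i) ≠ 0} := ⟨⟨e.symm k0, by simpa using hk0⟩⟩
  set E2 := {j | j ∈ E1 ∧ ∑ i, w i * (x j i : ℚ) = 0} with hE2
  obtain ⟨i, i', M', ρ, hii, hM', hM'inf, hprop⟩ := hR {i : ι // w (e i) ≠ 0} S
    (fun i => w (e i.1)) E2 (fun j i => u j i.1) hSp hne' (fun i => i.2) hwinf
    (fun j hj i => hu j (hE1M j hj.1) i.1) (by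
      intro j hj
      have h1 := hj.2
      rw [← Equiv.sum_comp e] at h1
      simp only [hx, Equiv.symm_apply_apply] at h1
      refine Eq.trans ?_ h1
      refine (Finset.sum_subtype (Finset.univ.filter (fun i => w (e i) ≠ 0))
          (fun i => ⟨fun hi => (Finset.mem_filter.mp hi).2,
            fun hi => Finset.mem_filter.mpr ⟨Finset.mem_univ i, hi⟩⟩)
          (fun i => w (e i) * (u j i : ℚ))).symm.trans ?_
      refine Finset.sum_filter_of_ne fun i _ h h0 => h ?_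
      rw [h0, zero_mul])
  refine hM'inf (Set.Finite.subset (hnp i.1 i'.1 ρ (fun h => hii (Subtype.ext h))) ?_)
  intro j hj
  exact ⟨hE1M j (hM' hj).1, hprop j hj⟩

theorem U2 (hS : ST_SUBT) (hR : ST_REL) (hAV : ST_AV) : ST_U2 := by
  intro ι _ _ S a ε M u v0 hSp hne ha hε hM hu hnp hv0
  rcases subsingleton_or_nontrivial ι with hsub | hnt
  · obtain ⟨hav0, havz, hav⟩ := hAV
    obtain ⟨hpos, hmul, -⟩ := hav S hSp
    obtain ⟨i0⟩ := hne
    refine ⟨av v0 (a i0), hpos v0 hv0 _ (ha i0), ?_⟩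
    refine Set.Finite.subset Set.finite_empty ?_
    intro j hj
    exfalso
    apply hj.2
    intro i H hH
    have h0 : (Finset.univ : Finset ι) = {i0} := by
      ext i'
      simp [Subsingleton.elim i' i0]
    have h1 : (1 : ℝ) ≤ H := by
      have h2 : (1 : ℤ) ≤ |u j i0| := Int.one_le_abs (hu j hj.1 i0).1
      have h3 : (1 : ℝ) ≤ |(u j i0 : ℝ)| := by exact_mod_cast h2
      exact h3.trans (hH i0)
    rw [Subsingleton.elim i i0, h0, Finset.sum_singleton, hmul v0 hv0]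
    have h4 : H ^ (-ε) ≤ 1 := Real.rpow_le_one_of_one_le_of_nonpos h1 (by linarith)
    calc av v0 (a i0) * av v0 (u j i0) * H ^ (-ε)
        ≤ av v0 (a i0) * av v0 (u j i0) * 1 :=
          mul_le_mul_of_nonneg_left h4 (mul_nonneg (hav0 _ _) (hav0 _ _))
      _ = av v0 (a i0) * av v0 (u j i0) := mul_one _
  · refine ⟨1, one_pos, ?_⟩
    have h1 := core hS hR hAV ι S a ε M u v0 hSp hnt ha hε hu hnp hv0
    refine Set.Finite.subset h1 ?_
    intro j hj
    refine ⟨hj.1, fun h => hj.2 fun i H hH => ?_⟩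
    rw [one_mul]
    exact h i H hH

end Pool.Agent.Helper8.SUB
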